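import Pool.Agent.W_MP_3ab0ed_al.Fin
import Pool.Agent.W_MP_3ab0ed_h82.OneStepAll

/-!
# MP_3ab0ed_al, Q1: a full negative answer

For every sufficiently large prime `p` the law `[x^p, y^p] = 1` defines a proper non-abelian
variety of groups all of whose free groups, of every rank, have torsion-free integral homology in
all dimensions.

Idea of the proof.  The free groups of the variety are `F / [N, N]`, where `N` is the subgroup
generated by all `p`-th powers of the free group `F`.  For large `p` the group `F / N` (the free
Burnside group) is shown to be aspherical: `N / [N, N]` is a permutation module of `F / N` whose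
point stabilisers are cyclic of order `p`.  This is proved from scratch by an iteration of
cone-off constructions of hyperbolic graphs with rotating families.  The torsion-freeness of the
homology then follows by an explicit free resolution.
-/

namespace Pool.Agent.Results.MP_3ab0ed_al.TorsionFreeVariety

open scoped commutatorElement

/-- The group `G` satisfies all the laws `w = 1`, `w ∈ W`: for every word `w ∈ W` (an element of
the free group on countably many letters) and every substitution of elements of `G` for the
letters, the value of `w` in `G` is `1`. -/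
def Sat (W : Set (FreeGroup ℕ)) (G : Type) [Group G] : Prop :=
  ∀ w ∈ W, ∀ x : ℕ → G, FreeGroup.lift x w = 1

/-- The verbal subgroup of `G` for the laws `W`: the subgroup generated by all values in `G` of
the words in `W`. -/
def verbal (W : Set (FreeGroup ℕ)) (G : Type) [Group G] : Subgroup G :=
  Subgroup.closure {g | ∃ w ∈ W, ∃ x : ℕ → G, FreeGroup.lift x w = g}

instance verbal_normal (W : Set (FreeGroup ℕ)) (G : Type) [Group G] : (verbal W G).Normal :=
  W3ab0ed.Laws.verbal_normal W G

/-- The free group of rank `κ` in the variety given by the laws `W`: the quotient of the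
absolutely free group on the set `κ` by its verbal subgroup. -/
abbrev RelFree (W : Set (FreeGroup ℕ)) (κ : Type) : Type :=
  FreeGroup κ ⧸ verbal W (FreeGroup κ)

/-- The law `[x^p, y^p] = 1`. -/
def law (p : ℕ) : Set (FreeGroup ℕ) :=
  {⁅(FreeGroup.of 0) ^ p, (FreeGroup.of 1) ^ p⁆}

/-- The group `G` has torsion-free integral homology in all dimensions `n ≥ 1` (trivial
coefficients `ℤ`). -/
def TorsionFreeHomology (G : Type) [Group G] : Prop :=
  ∀ n : ℕ, 1 ≤ n → ∀ (m : ℕ) (z : groupHomology (Rep.trivial ℤ G ℤ) n),
    m ≠ 0 → m • z = 0 → z = 0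

/-- For every sufficiently large prime `p`, the variety defined by the law `[x^p, y^p] = 1` is
proper (some group does not satisfy the law), it is not abelian (some group with two elements
that do not commute satisfies the law), and its free groups of every rank `κ` have torsion-free
integral homology in all dimensions. -/
theorem result : ∃ p₀ : ℕ, ∀ p : ℕ, p.Prime → p₀ ≤ p →
    (∃ (G : Type) (_ : Group G), ¬ Sat (law p) G) ∧
    (∃ (G : Type) (_ : Group G), Sat (law p) G ∧ ∃ x y : G, x * y ≠ y * x) ∧
    ∀ κ : Type, TorsionFreeHomology (RelFree (law p) κ) := by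
  obtain ⟨p₀, B, q, hB, hq, hstep⟩ := Burn.oneStep_all
  have H : ∀ p : ℕ, p.Prime → p₀ ≤ p → ∀ (κ : Type) (n : ℕ), 1 ≤ n →
      ∀ (m : ℕ) (z : groupHomology
        (Rep.trivial ℤ (W3ab0ed.Laws.RelFree (W3ab0ed.Laws.lawP p) κ) ℤ) n),
        m ≠ 0 → m • z = 0 → z = 0 := by
    intro p hp hp₀ κ n hn m z hm hz
    have : Fact p.Prime := ⟨hp⟩
    obtain ⟨hodd, hs⟩ := hstep p hp hp₀
    exact Burn.torsionFree_of_oneStep hodd (Burn.isoInv_cc p B q)
      (Burn.initOut_cc p B q hp.ne_zero hB hq κ) hs n hn m z hm hz
  refine ⟨p₀, fun p hp hp₀ => ?_⟩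
  have : Fact p.Prime := ⟨hp⟩
  exact ⟨⟨W3ab0ed.Laws.Heis ℤ, inferInstance, W3ab0ed.Laws.heis_int_not_sat p hp.ne_zero⟩,
    ⟨W3ab0ed.Laws.Heis (ZMod p), inferInstance, W3ab0ed.Laws.heis_zmod_sat p,
      W3ab0ed.Laws.heis_zmod_not_comm p⟩, H p hp hp₀⟩

end Pool.Agent.Results.MP_3ab0ed_al.TorsionFreeVariety
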